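import Pool.Agent.W_be22fd_h27.GridDef

/-!
# The grid step: heights are injective in every state
-/

namespace Pool.Agent.W_be22fd_h86

open Pool.Agent.W_be22fd_h27

variable (B : Block) (X : ℕ)

theorem old_old (M i : ℕ) (t : B.τ) {u u' : B.W} {o o' : ℤ}
    (h : hOld B X M i t u o = hOld B X M i t u' o') : u = u' ∧ o = o' := by
  simp only [hOld] at h
  split_ifs at h with h1 h2
  · rw [H4_inj] at h
    obtain ⟨-, h3, h4, h5⟩ := h
    have := B.inj _ h5
    exact ⟨by injection this, h4⟩
  · rw [H4_inj] at h
    obtain ⟨-, h3, h4, h5⟩ := h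
    rw [h3] at h5
    have h6 := B.inj _ h5
    have h7 : u = u' := by injection h6
    subst h7
    exact ⟨rfl, by linarith⟩
  · rw [H4_inj] at h
    obtain ⟨-, h3, h4, h5⟩ := h
    have := B.inj _ h5
    exact ⟨by injection this, h4⟩

theorem old_mv (M i : ℕ) (t : B.τ) {u : B.W} {o : ℤ} {κ : MK B.ns} {k : ℕ} (hk : k < X * X)
    (h : hOld B X M i t u o = hMv B X M i t κ k) : False := by
  have hz : (H4 κ.zb (κ.ab k) κ.bb (B.h B.ini κ.wire)) ≠ hOld B X M i t u o := by
    intro h'
    simp only [hOld] at h'
    split_ifs at h' <;> rw [H4_inj] at h' <;> cases κ <;> simp [MK.zb] at h'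
  have hz' : (H4 κ.za (κ.aa k) κ.bb (B.h B.fin κ.wire)) ≠ hOld B X M i t u o := by
    intro h'
    simp only [hOld] at h'
    split_ifs at h' <;> rw [H4_inj] at h' <;> cases κ <;> simp [MK.za] at h'
  simp only [hMv] at h
  split_ifs at h with h1 h2
  · exact hz h.symm
  · obtain ⟨h2, h3⟩ := h2
    simp only [hOld] at h
    split_ifs at h with h4 h5
    · omega
    · rw [H4_inj] at h
      obtain ⟨-, h6, -, h7⟩ := h
      have hc : clk B X M i t (B.slope u * kx X M + o) = t := by
        rw [h6]
        simp [clk, h3]
      rw [hc] at h7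
      have := B.inj _ h7
      cases κ <;> simp [MK.wire] at this
    · omega
  · exact hz' h.symm

theorem mv_mv (M i : ℕ) (t : B.τ) {κ κ' : MK B.ns} {k k' : ℕ}
    (h : hMv B X M i t κ k = hMv B X M i t κ' k') : κ = κ' ∧ k = k' := by
  simp only [hMv] at h
  split_ifs at h
  · rw [H4_inj] at h
    cases κ <;> cases κ' <;> simp [MK.zb, MK.ab, MK.bb, Fin.ext_iff] at h ⊢ <;> omega
  · rw [H4_inj] at h
    cases κ <;> simp [MK.zb] at h
  · rw [H4_inj] at h
    cases κ <;> cases κ' <;> simp [MK.zb, MK.za] at h
  · rw [H4_inj] at h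
    cases κ' <;> simp [MK.zb] at h
  · rw [H4_inj] at h
    have := B.inj _ h.2.2.2
    refine ⟨?_, by omega⟩
    cases κ <;> cases κ' <;> simp [MK.wire] at this ⊢ <;> exact this
  · rw [H4_inj] at h
    cases κ' <;> simp [MK.za] at h
  · rw [H4_inj] at h
    cases κ <;> cases κ' <;> simp [MK.zb, MK.za] at h
  · rw [H4_inj] at h
    cases κ <;> simp [MK.za] at h
  · rw [H4_inj] at h
    cases κ <;> cases κ' <;> simp [MK.za, MK.aa, MK.bb, Fin.ext_iff] at h ⊢ <;> omega

/-- zones of the inner wires -/
theorem inn_zone (M i : ℕ) (t : B.τ) (w : GW B X) : ∃ (z a b : ℤ) (c : B.α),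
    hG B X M i t (.inn w) = H4 z a b c ∧ (z = -18 ∨ z = -14 ∨ z = -20 ∨ z = -12 ∨ z = -8 ∨
      z = -24 ∨ z = -6 ∨ z = -26 ∨ z = -16) := by
  cases w with
  | old u o ho =>
    simp only [hG, hOld]
    split_ifs
    · exact ⟨_, _, _, _, rfl, by simp⟩
    · exact ⟨_, _, _, _, rfl, by simp⟩
    · exact ⟨_, _, _, _, rfl, by simp⟩
  | mv κ k =>
    simp only [hG, hMv]
    split_ifs
    · exact ⟨_, _, _, _, rfl, by cases κ <;> simp [MK.zb]⟩
    · exact ⟨_, _, _, _, rfl, by simp⟩
    · exact ⟨_, _, _, _, rfl, by cases κ <;> simp [MK.za]⟩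

/-- zones of the outer wires -/
theorem outer_ne (M i : ℕ) (t : B.τ) (w : GW B X) (q : Wire (GW B X) (X * X + 1))
    (hq : ∀ w', q ≠ .inn w') : hG B X M i t (.inn w) ≠ hG B X M i t q := by
  obtain ⟨z, a, b, c, h1, h2⟩ := inn_zone B X M i t w
  rw [h1]
  intro h
  cases q with
  | inn w' => exact hq w' rfl
  | L =>
    simp only [hG] at h
    split_ifs at h <;> rw [H4_inj] at h <;> omega
  | C =>
    simp only [hG] at h
    split_ifs at h <;> rw [H4_inj] at h <;> omega
  | S m =>
    simp only [hG] at h
    split_ifs at h <;> rw [H4_inj] at h <;> omega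
  | R m =>
    simp only [hG] at h
    split_ifs at h <;> rw [H4_inj] at h <;> omega

theorem outer_inj (M i : ℕ) (t : B.τ) (p q : Wire (GW B X) (X * X + 1))
    (hp : ∀ w', p ≠ .inn w') (hq : ∀ w', q ≠ .inn w') (h : hG B X M i t p = hG B X M i t q) :
    p = q := by
  cases p with
  | inn w' => exact absurd rfl (hp w')
  | L =>
    cases q with
    | inn w' => exact absurd rfl (hq w')
    | L => rfl
    | C => simp only [hG] at h; split_ifs at h <;> rw [H4_inj] at h <;> omega
    | S m => simp only [hG] at h; split_ifs at h <;> rw [H4_inj] at h <;> omega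
    | R m => simp only [hG] at h; split_ifs at h <;> rw [H4_inj] at h <;> omega
  | C =>
    cases q with
    | inn w' => exact absurd rfl (hq w')
    | C => rfl
    | L => simp only [hG] at h; split_ifs at h <;> rw [H4_inj] at h <;> omega
    | S m => simp only [hG] at h; split_ifs at h <;> rw [H4_inj] at h <;> omega
    | R m => simp only [hG] at h; split_ifs at h <;> rw [H4_inj] at h <;> omega
  | S m =>
    cases q with
    | inn w' => exact absurd rfl (hq w')
    | L => simp only [hG] at h; split_ifs at h <;> rw [H4_inj] at h <;> omega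
    | C => simp only [hG] at h; split_ifs at h <;> rw [H4_inj] at h <;> omega
    | S m' =>
      have : m = m' := by
        apply Fin.ext
        simp only [hG] at h; split_ifs at h <;> rw [H4_inj] at h <;> omega
      rw [this]
    | R m' => simp only [hG] at h; split_ifs at h <;> rw [H4_inj] at h <;> omega
  | R m =>
    cases q with
    | inn w' => exact absurd rfl (hq w')
    | L => simp only [hG] at h; split_ifs at h <;> rw [H4_inj] at h <;> omega
    | C => simp only [hG] at h; split_ifs at h <;> rw [H4_inj] at h <;> omega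
    | S m' => simp only [hG] at h; split_ifs at h <;> rw [H4_inj] at h <;> omega
    | R m' =>
      have : m = m' := by
        apply Fin.ext
        simp only [hG] at h; split_ifs at h <;> rw [H4_inj] at h <;> omega
      rw [this]

/-- The heights of the grid are injective in every state. -/
theorem hG_injective (M i : ℕ) (t : B.τ) : Function.Injective (hG B X M i t) := by
  intro p q h
  cases p with
  | inn w =>
    cases q with
    | inn w' =>
      cases w with
      | old u o ho =>
        cases w' with
        | old u' o' ho' =>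
          obtain ⟨h1, h2⟩ := old_old B X M i t h
          subst h1; subst h2; rfl
        | mv κ k => exact (old_mv B X M i t k.2 h).elim
      | mv κ k =>
        cases w' with
        | old u' o' ho' => exact (old_mv B X M i t k.2 h.symm).elim
        | mv κ' k' =>
          obtain ⟨h1, h2⟩ := mv_mv B X M i t h
          rw [h1, Fin.ext h2]
    | L => exact (outer_ne B X M i t w _ (by simp) h).elim
    | C => exact (outer_ne B X M i t w _ (by simp) h).elim
    | S m => exact (outer_ne B X M i t w _ (by simp) h).elim
    | R m => exact (outer_ne B X M i t w _ (by simp) h).elim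
  | L =>
    cases q with
    | inn w => exact (outer_ne B X M i t w _ (by simp) h.symm).elim
    | L => rfl
    | C => exact outer_inj B X M i t _ _ (by simp) (by simp) h
    | S m => exact outer_inj B X M i t _ _ (by simp) (by simp) h
    | R m => exact outer_inj B X M i t _ _ (by simp) (by simp) h
  | C =>
    cases q with
    | inn w => exact (outer_ne B X M i t w _ (by simp) h.symm).elim
    | L => exact outer_inj B X M i t _ _ (by simp) (by simp) h
    | C => rfl
    | S m => exact outer_inj B X M i t _ _ (by simp) (by simp) h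
    | R m => exact outer_inj B X M i t _ _ (by simp) (by simp) h
  | S m =>
    cases q with
    | inn w => exact (outer_ne B X M i t w _ (by simp) h.symm).elim
    | L => exact outer_inj B X M i t _ _ (by simp) (by simp) h
    | C => exact outer_inj B X M i t _ _ (by simp) (by simp) h
    | S m => exact outer_inj B X M i t _ _ (by simp) (by simp) h
    | R m => exact outer_inj B X M i t _ _ (by simp) (by simp) h
  | R m =>
    cases q with
    | inn w => exact (outer_ne B X M i t w _ (by simp) h.symm).elim
    | L => exact outer_inj B X M i t _ _ (by simp) (by simp) h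
    | C => exact outer_inj B X M i t _ _ (by simp) (by simp) h
    | S m => exact outer_inj B X M i t _ _ (by simp) (by simp) h
    | R m => exact outer_inj B X M i t _ _ (by simp) (by simp) h

end Pool.Agent.W_be22fd_h86
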